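import Mathlib

/-! # Consecutive points of a sequence tending to infinity -/

set_option autoImplicit false

open Filter

namespace Pool.Agent.T2H51.PZ

lemma consec_aux {f : ℕ → ℝ} (hf : Tendsto f atTop atTop) {T U d : ℝ} {a b : ℕ} (ha : 1 ≤ a) (hb : 1 ≤ b)
    (hab : a ≠ b) (h1 : T ≤ f a) (h4 : f b ≤ U) (hle : f a ≤ f b) (hd : f b - f a < d) :
    ∃ m n : ℕ, 1 ≤ m ∧ 1 ≤ n ∧ m ≠ n ∧ T ≤ f m ∧ f m ≤ f n ∧ f n ≤ U ∧
      (∀ k : ℕ, 1 ≤ k → ¬ (f m < f k ∧ f k < f n)) ∧ f n - f m < d := by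
  classical
  obtain ⟨N, hN⟩ := eventually_atTop.1 (hf.eventually_gt_atTop (f b))
  set F : Finset ℕ := (Finset.range N).filter fun k => 1 ≤ k ∧ k ≠ a ∧ f a ≤ f k ∧ f k ≤ f b with hF
  have hbF : b ∈ F := by
    rw [hF, Finset.mem_filter, Finset.mem_range]
    refine ⟨?_, hb, hab.symm, hle, le_rfl⟩
    by_contra hcon
    exact absurd (hN b (by omega)) (lt_irrefl _)
  obtain ⟨n, hn, hmin⟩ := Finset.exists_min_image F f ⟨b, hbF⟩
  rw [hF, Finset.mem_filter, Finset.mem_range] at hn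
  obtain ⟨hnN, hn1, hna, hn2, hn3⟩ := hn
  refine ⟨a, n, ha, hn1, hna.symm, h1, hn2, hn3.trans h4, fun k hk hk' => ?_, by linarith⟩
  obtain ⟨hk1, hk2⟩ := hk'
  have hkF : k ∈ F := by
    rw [hF, Finset.mem_filter, Finset.mem_range]
    refine ⟨?_, hk, ?_, hk1.le, hk2.le.trans hn3⟩
    · by_contra hcon
      have := hN k (by omega)
      linarith
    · rintro rfl
      exact lt_irrefl _ hk1
  have := hmin k hkF
  linarith

lemma consec {f : ℕ → ℝ} (hf : Tendsto f atTop atTop) {T U d : ℝ} {a b : ℕ} (ha : 1 ≤ a) (hb : 1 ≤ b)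
    (hab : a ≠ b) (h1 : T ≤ f a) (h2 : T ≤ f b) (h3 : f a ≤ U) (h4 : f b ≤ U) (hd : |f b - f a| < d) :
    ∃ m n : ℕ, 1 ≤ m ∧ 1 ≤ n ∧ m ≠ n ∧ T ≤ f m ∧ f m ≤ f n ∧ f n ≤ U ∧
      (∀ k : ℕ, 1 ≤ k → ¬ (f m < f k ∧ f k < f n)) ∧ f n - f m < d := by
  rcases le_total (f a) (f b) with h | h
  · exact consec_aux hf ha hb hab h1 h4 h ((le_abs_self _).trans_lt hd)
  · refine consec_aux hf hb ha hab.symm h2 h3 h (lt_of_le_of_lt ?_ hd)
    rw [abs_sub_comm]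
    exact le_abs_self _

lemma tendsto_pert {g : ℕ → ℝ} (hg : Tendsto g atTop atTop) {x : ℕ → ℝ} (hx : ∀ n, |x n| ≤ 1 / 8) :
    Tendsto (fun n => g n + x n * (2 * Real.pi / Real.log (g n))) atTop atTop := by
  have h1 : Tendsto (fun n => g n + (-1)) atTop atTop := tendsto_atTop_add_const_right _ _ hg
  refine tendsto_atTop_mono' atTop ?_ h1
  filter_upwards [hg.eventually_ge_atTop (Real.exp 1)] with n hn
  have h2 : 1 ≤ Real.log (g n) := by
    rw [Real.le_log_iff_exp_le (lt_of_lt_of_le (Real.exp_pos 1) hn)]; exact hn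
  have hpi := Real.pi_pos
  have hpi4 := Real.pi_le_four
  have h3 : 2 * Real.pi / Real.log (g n) ≤ 8 := by
    rw [div_le_iff₀ (by linarith)]
    nlinarith
  have h4 : 0 ≤ 2 * Real.pi / Real.log (g n) := by positivity
  have h5 := (abs_le.1 (hx n)).1
  nlinarith

end Pool.Agent.T2H51.PZ
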