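import Pool.Agent.T2H51.PZ.Prob

/-! # The abstract theorem -/

set_option autoImplicit false

open MeasureTheory ProbabilityTheory Filter Finset

namespace Pool.Agent.T2H51.PZ

lemma ev_small (Q θ : ℝ) (hQ : 0 ≤ Q) (h0 : 0 < θ) (h1 : θ < 1) :
    ∀ᶠ x : ℝ in atTop, (2 * (Q * Real.log x + 1) + 1) * (2 * x) ^ θ + 1 ≤ x / 2 := by
  have hr : 0 < 1 - θ := by linarith
  have e1 := (isLittleO_log_rpow_atTop hr).bound (show (0 : ℝ) < 1 / (32 * (Q + 1)) by positivity)
  have e2 := (tendsto_rpow_atTop hr).eventually_ge_atTop 48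
  filter_upwards [e1, e2, eventually_ge_atTop (4 : ℝ)] with x h2 h3 h4
  have hx : 0 < x := by linarith
  rw [Real.norm_eq_abs, Real.norm_eq_abs, abs_of_nonneg (Real.log_nonneg (by linarith)),
    abs_of_pos (Real.rpow_pos_of_pos hx _)] at h2
  set y : ℝ := x ^ (1 - θ) with hy
  have hy0 : 0 < y := Real.rpow_pos_of_pos hx _
  have h5 : Q * Real.log x ≤ y / 32 := by
    have h6 : Q * Real.log x ≤ Q * (1 / (32 * (Q + 1)) * y) := mul_le_mul_of_nonneg_left h2 hQ
    have h7 : Q * (1 / (32 * (Q + 1)) * y) ≤ y / 32 := by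
      rw [mul_one_div_eq_aux Q y]
      have : Q / (Q + 1) ≤ 1 := by rw [div_le_one (by positivity)]; linarith
      nlinarith
    linarith
  have h6 : 2 * (Q * Real.log x + 1) + 1 ≤ y / 8 := by linarith
  have h7 : (2 * x) ^ θ ≤ 2 * x ^ θ := by
    rw [Real.mul_rpow (by norm_num) hx.le]
    refine mul_le_mul_of_nonneg_right ?_ (by positivity)
    calc (2 : ℝ) ^ θ ≤ 2 ^ (1 : ℝ) := Real.rpow_le_rpow_of_exponent_le (by norm_num) h1.le
      _ = 2 := Real.rpow_one 2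
  have h8 : y * x ^ θ = x := by
    rw [hy, ← Real.rpow_add hx]
    simp
  have h9 : (2 * (Q * Real.log x + 1) + 1) * (2 * x) ^ θ ≤ y / 8 * (2 * x ^ θ) := by
    refine mul_le_mul h6 h7 (by positivity) (by positivity)
  nlinarith
where
  mul_one_div_eq_aux (Q y : ℝ) : Q * (1 / (32 * (Q + 1)) * y) = Q / (Q + 1) * (y / 32) := by
    by_cases h : Q + 1 = 0
    · rw [h]; simp
    · field_simp

lemma step1 {g : ℕ → ℝ} {c θ T0 : ℝ} (h0 : 0 < θ) (h1 : θ < 1) (hc : 0 ≤ c)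
    (hg : ∀ T : ℝ, T0 ≤ T → ∃ n : ℕ, 1 ≤ n ∧ T ≤ g n ∧ g n ≤ g (n + 1) ∧ g (n + 1) ≤ T + T ^ θ ∧
      g (n + 1) - g n < c * (2 * Real.pi / Real.log T)) (Q : ℝ) (hQ : 0 ≤ Q) :
    ∃ M0 : ℕ, ∀ M : ℕ, M0 ≤ M → ∃ s : Finset ℕ, (∀ n ∈ s, n + 1 ∉ s) ∧
      (∀ n ∈ s, 1 ≤ n ∧ (M : ℝ) + 1 ≤ g n ∧ g n ≤ g (n + 1) ∧ g (n + 1) ≤ 3 / 2 * M ∧
        g (n + 1) - g n < c * (2 * Real.pi / Real.log M)) ∧ Q * Real.log M ≤ s.card := by
  classical
  have ev := (tendsto_natCast_atTop_atTop (R := ℝ)).eventually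
    ((ev_small Q θ hQ h0 h1).and ((eventually_ge_atTop (4 : ℝ)).and (eventually_ge_atTop T0)))
  obtain ⟨M0, hM0⟩ := eventually_atTop.1 ev
  refine ⟨M0, fun M hM => ?_⟩
  obtain ⟨h2, h3, h4⟩ := hM0 M hM
  have hMpos : (0 : ℝ) < M := by linarith
  set L : ℝ := (2 * (M : ℝ)) ^ θ with hL
  have hLpos : 0 < L := Real.rpow_pos_of_pos (by linarith) _
  set J : ℕ := ⌈Q * Real.log M⌉₊ with hJ
  have hlog : 0 ≤ Real.log M := Real.log_nonneg (by linarith)
  have hJ1 : (J : ℝ) ≤ Q * Real.log M + 1 := (Nat.ceil_lt_add_one (by positivity)).le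
  have hJ2 : Q * Real.log M ≤ J := Nat.le_ceil _
  set T : ℕ → ℝ := fun j => (M : ℝ) + 1 + 2 * j * L with hT
  have hTJ : ∀ j, j < J → T j + L ≤ 3 / 2 * M := by
    intro j hj
    have hj' : (j : ℝ) ≤ J := by exact_mod_cast hj.le
    have h5 : (2 * (J : ℝ) + 1) * L ≤ (2 * (Q * Real.log M + 1) + 1) * L :=
      mul_le_mul_of_nonneg_right (by linarith) hLpos.le
    have h6 : 2 * (j : ℝ) * L ≤ 2 * J * L := mul_le_mul_of_nonneg_right (by linarith) hLpos.le
    rw [hT]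
    simp only
    nlinarith
  have hTM : ∀ j, (M : ℝ) + 1 ≤ T j := by
    intro j
    rw [hT]
    simp only
    have : 0 ≤ 2 * (j : ℝ) * L := by positivity
    linarith
  have hTT : ∀ i j : ℕ, i < j → T i + L < T j := by
    intro i j hij
    have : (i : ℝ) + 1 ≤ j := by exact_mod_cast hij
    rw [hT]
    simp only
    nlinarith
  have hex : ∀ j, j < J → ∃ n : ℕ, 1 ≤ n ∧ T j ≤ g n ∧ g n ≤ g (n + 1) ∧ g (n + 1) ≤ T j + L ∧
      g (n + 1) - g n < c * (2 * Real.pi / Real.log M) := by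
    intro j hj
    have hT1 := hTM j
    obtain ⟨n, hn1, h5, h6, h7, h8⟩ := hg (T j) (by linarith)
    refine ⟨n, hn1, h5, h6, h7.trans ?_, h8.trans_le ?_⟩
    · have : T j ^ θ ≤ L := by
        rw [hL]
        refine Real.rpow_le_rpow (by linarith) ?_ h0.le
        have := hTJ j hj
        linarith
      linarith
    · refine mul_le_mul_of_nonneg_left ?_ hc
      refine div_le_div_of_nonneg_left (by positivity) (Real.log_pos (by linarith)) ?_
      exact Real.log_le_log hMpos (by linarith)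
  choose! n hn using hex
  have hlt : ∀ i j, i < J → j < J → i < j → g (n i) < g (n j) ∧ g (n i + 1) < g (n j) := by
    intro i j hi hj hij
    have h5 := hn i hi
    have h6 := hn j hj
    have h7 := hTT i j hij
    constructor <;> linarith [h5.2.2.1, h5.2.2.2.1, h6.2.1]
  refine ⟨(range J).image n, ?_, ?_, ?_⟩
  · intro a ha ha'
    rw [mem_image] at ha ha'
    obtain ⟨i, hi, rfl⟩ := ha
    obtain ⟨j, hj, hij⟩ := ha'
    rw [mem_range] at hi hj
    rcases lt_trichotomy i j with h | h | h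
    · have := (hlt i j hi hj h).2
      rw [hij] at this
      exact lt_irrefl _ this
    · subst h; omega
    · have h5 := (hlt j i hj hi h).1
      have h6 := (hn i hi).2.2.1
      rw [hij] at h5
      linarith
  · intro a ha
    rw [mem_image] at ha
    obtain ⟨i, hi, rfl⟩ := ha
    rw [mem_range] at hi
    obtain ⟨h5, h6, h7, h8, h9⟩ := hn i hi
    exact ⟨h5, (hTM i).trans h6, h7, h8.trans (hTJ i hi), h9⟩
  · rw [card_image_of_injOn, card_range]
    · exact hJ2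
    · intro i hi j hj hij
      rw [mem_coe, mem_range] at hi hj
      rcases lt_trichotomy i j with h | h | h
      · have := (hlt i j hi hj h).1
        rw [hij] at this
        exact absurd this (lt_irrefl _)
      · exact h
      · have := (hlt j i hj hi h).1
        rw [hij] at this
        exact absurd this (lt_irrefl _)

/-- the perturbed sequence -/
noncomputable def pt (g : ℕ → ℝ) (x : ℕ → ℝ) (n : ℕ) : ℝ := g n + x n * (2 * Real.pi / Real.log (g n))

/-- the deterministic part: a small gap shrinks -/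
lemma shrink {g x : ℕ → ℝ} {η T M : ℝ} {n : ℕ} (hη : 0 < η) (hη8 : η ≤ 1 / 8) (hT : 8 ≤ T) (hM : T ≤ M)
    (hM1 : M ≤ T + 1) (hx : ∀ n, |x n| ≤ 1 / 8) (h1 : M + 1 ≤ g n) (h2 : g n ≤ g (n + 1)) (h3 : g (n + 1) ≤ 3 / 2 * M)
    (h4 : g (n + 1) - g n < (1 / 2 + η / 2) * (2 * Real.pi / Real.log M)) (h5 : η ≤ x n) (h6 : x (n + 1) ≤ -η) :
    T ≤ pt g x n ∧ T ≤ pt g x (n + 1) ∧ pt g x n ≤ 2 * T ∧ pt g x (n + 1) ≤ 2 * T ∧
      |pt g x (n + 1) - pt g x n| < (1 / 2 - η / 2) * (2 * Real.pi / Real.log T) := by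
  have hpi := Real.pi_pos
  have hpi4 := Real.pi_lt_d2
  have hl8 : 3 * Real.log 2 ≤ Real.log T := by
    have : Real.log 8 = 3 * Real.log 2 := by
      rw [show (8 : ℝ) = 2 ^ 3 by norm_num, Real.log_pow]; norm_num
    rw [← this]
    exact Real.log_le_log (by norm_num) hT
  have hl2 := Real.log_two_gt_d9
  have hlT : 1 < Real.log T := by linarith
  set W : ℝ := 2 * Real.pi / Real.log T with hW
  have hWpos : 0 < W := by positivity
  have hW8 : W < 8 := by
    rw [hW, div_lt_iff₀ (by linarith)]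
    nlinarith
  -- the weights of the two points
  have hwt : ∀ a : ℝ, T ≤ a → a ≤ 2 * T → 3 / 4 * W ≤ 2 * Real.pi / Real.log a ∧ 2 * Real.pi / Real.log a ≤ W := by
    intro a ha ha'
    have hla : Real.log T ≤ Real.log a := Real.log_le_log (by linarith) ha
    have hla' : Real.log a ≤ 4 / 3 * Real.log T := by
      have : Real.log a ≤ Real.log 2 + Real.log T := by
        rw [← Real.log_mul (by norm_num) (by linarith)]
        exact Real.log_le_log (by linarith) ha'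
      linarith
    constructor
    · rw [hW, ← mul_div_assoc, div_le_div_iff₀ (by linarith) (by linarith)]
      nlinarith
    · exact div_le_div_of_nonneg_left (by positivity) (by linarith) hla
  obtain ⟨ha1, ha2⟩ := hwt (g n) (by linarith) (by linarith)
  obtain ⟨hb1, hb2⟩ := hwt (g (n + 1)) (by linarith) (by linarith)
  set wa : ℝ := 2 * Real.pi / Real.log (g n) with hwa
  set wb : ℝ := 2 * Real.pi / Real.log (g (n + 1)) with hwb
  have hwa0 : 0 < wa := by nlinarith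
  have hwb0 : 0 < wb := by nlinarith
  have hxa := abs_le.1 (hx n)
  have hxb := abs_le.1 (hx (n + 1))
  have hgap : g (n + 1) - g n < (1 / 2 + η / 2) * W := by
    refine h4.trans_le (mul_le_mul_of_nonneg_left ?_ (by linarith))
    rw [hW]
    exact div_le_div_of_nonneg_left (by positivity) (by linarith) (Real.log_le_log (by linarith) hM)
  have p1 : η * (3 / 4 * W) ≤ x n * wa := mul_le_mul h5 ha1 (by positivity) (by linarith)
  have p2 : x n * wa ≤ 1 / 8 * W := mul_le_mul hxa.2 ha2 hwa0.le (by norm_num)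
  have p3 : η * (3 / 4 * W) ≤ (-x (n + 1)) * wb := mul_le_mul (by linarith) hb1 (by positivity) (by linarith)
  have p4 : (-x (n + 1)) * wb ≤ 1 / 8 * W := mul_le_mul (by linarith) hb2 hwb0.le (by norm_num)
  have e1 : pt g x n = g n + x n * wa := rfl
  have e2 : pt g x (n + 1) = g (n + 1) + x (n + 1) * wb := rfl
  have hηW : 0 < η * W := by positivity
  have hη8W : η * W ≤ 1 / 8 * W := mul_le_mul_of_nonneg_right hη8 hWpos.le
  rw [e1, e2]
  refine ⟨by nlinarith, by nlinarith, by nlinarith, by nlinarith, ?_⟩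
  rw [abs_lt]
  constructor <;> nlinarith

section
variable {Ω : Type} [MeasurableSpace Ω] {P : Measure Ω} [IsProbabilityMeasure P] {η p : ℝ} {ξ : ℕ → Ω → ℝ}

theorem absThm {g : ℕ → ℝ} {θ T0 : ℝ} (h0 : 0 < θ) (h1 : θ < 1) (hη : 0 < η) (hη8 : η ≤ 1 / 8) (hp : 0 < p)
    (hg : ∀ T : ℝ, T0 ≤ T → ∃ n : ℕ, 1 ≤ n ∧ T ≤ g n ∧ g n ≤ g (n + 1) ∧ g (n + 1) ≤ T + T ^ θ ∧
      g (n + 1) - g n < (1 / 2 + η / 2) * (2 * Real.pi / Real.log T)) (h : Pert P η p ξ) :
    ∀ᵐ ω ∂P, ∃ T1 : ℝ, ∀ T : ℝ, T1 ≤ T → ∃ n : ℕ, 1 ≤ n ∧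
      T ≤ pt g (fun n => ξ n ω) n ∧ T ≤ pt g (fun n => ξ n ω) (n + 1) ∧
      pt g (fun n => ξ n ω) n ≤ 2 * T ∧ pt g (fun n => ξ n ω) (n + 1) ≤ 2 * T ∧
      |pt g (fun n => ξ n ω) (n + 1) - pt g (fun n => ξ n ω) n| < (1 / 2 - η / 2) * (2 * Real.pi / Real.log T) := by
  classical
  have hp1 : p ≤ 1 := (h.up 0).trans measureReal_le_one
  set Q : ℝ := 3 / p ^ 2 with hQ
  obtain ⟨M0, hM0⟩ := step1 h0 h1 (by linarith : (0 : ℝ) ≤ 1 / 2 + η / 2) hg Q (by positivity)
  choose! s hs1 hs2 hs3 using hM0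
  -- the bad events
  set Bad : ℕ → Set Ω := fun M => if M0 ≤ M ∧ 1 ≤ M then
    {ω | ∀ n ∈ s M, ¬ (η ≤ ξ n ω ∧ ξ (n + 1) ω ≤ -η)} else ∅ with hBad
  have hbd : ∀ M, P (Bad M) ≤ ENNReal.ofReal (1 / (M : ℝ) ^ 3) := by
    intro M
    rw [hBad]
    simp only
    split_ifs with hM
    · rw [← ofReal_measureReal]
      refine ENNReal.ofReal_le_ofReal ((bad h hp.le (s M) (hs1 M hM.1)).trans ?_)
      have hMpos : (0 : ℝ) < M := by exact_mod_cast hM.2
      have h2 : 0 ≤ 1 - p ^ 2 := by nlinarith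
      have h3 : 1 - p ^ 2 ≤ Real.exp (-p ^ 2) := by
        have := Real.add_one_le_exp (-p ^ 2)
        linarith
      calc (1 - p ^ 2) ^ (s M).card ≤ Real.exp (-p ^ 2) ^ (s M).card := pow_le_pow_left₀ h2 h3 _
        _ = Real.exp (-(p ^ 2 * (s M).card)) := by rw [← Real.exp_nat_mul]; congr 1; ring
        _ ≤ Real.exp (-(3 * Real.log M)) := by
            rw [Real.exp_le_exp, neg_le_neg_iff]
            have h4 := mul_le_mul_of_nonneg_left (hs3 M hM.1) (sq_nonneg p)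
            have h5 : p ^ 2 * (Q * Real.log M) = 3 * Real.log M := by
              rw [hQ]; field_simp
            linarith
        _ = 1 / (M : ℝ) ^ 3 := by
            rw [Real.exp_neg, mul_comm, Real.exp_mul, Real.exp_log hMpos, one_div]
            norm_cast
    · rw [measure_empty]; exact zero_le
  have hsum : ∑' M, P (Bad M) ≠ ⊤ := by
    refine ne_top_of_le_ne_top ?_ (ENNReal.tsum_le_tsum hbd)
    rw [← ENNReal.ofReal_tsum_of_nonneg (fun M => by positivity) (Real.summable_one_div_nat_pow.2 (by norm_num))]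
    exact ENNReal.ofReal_ne_top
  filter_upwards [ae_eventually_notMem hsum] with ω hω
  obtain ⟨M1, hM1⟩ := eventually_atTop.1 hω
  refine ⟨max (8 : ℝ) (max M0 M1), fun T hT => ?_⟩
  have hT8 : 8 ≤ T := (le_max_left _ _).trans hT
  have hTM0 : (M0 : ℝ) ≤ T := (le_max_left _ _).trans ((le_max_right _ _).trans hT)
  have hTM1 : (M1 : ℝ) ≤ T := (le_max_right _ _).trans ((le_max_right _ _).trans hT)
  set M : ℕ := ⌈T⌉₊ with hM
  have hMT : T ≤ M := Nat.le_ceil _
  have hMT1 : (M : ℝ) ≤ T + 1 := (Nat.ceil_lt_add_one (by linarith)).le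
  have hMM0 : M0 ≤ M := by exact_mod_cast hTM0.trans hMT
  have hMM1 : M1 ≤ M := by exact_mod_cast hTM1.trans hMT
  have hM1' : 1 ≤ M := by
    have : (1 : ℝ) ≤ M := by linarith
    exact_mod_cast this
  have hnot := hM1 M hMM1
  rw [hBad] at hnot
  simp only [if_pos (show M0 ≤ M ∧ 1 ≤ M from ⟨hMM0, hM1'⟩)] at hnot
  have hnot' : ¬ ∀ n ∈ s M, ¬ (η ≤ ξ n ω ∧ ξ (n + 1) ω ≤ -η) := hnot
  push Not at hnot'
  obtain ⟨n, hn, h5, h6⟩ := hnot'
  obtain ⟨h7, h8, h9, h10, h11⟩ := hs2 M hMM0 n hn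
  exact ⟨n, h7, shrink hη hη8 hT8 hMT hMT1 (fun n => h.bound n ω) h8 h9 h10 h11 h5 h6⟩

end

end Pool.Agent.T2H51.PZ
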