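import Mathlib

/-! # Probability: random perturbations of a sequence -/

set_option autoImplicit false

open MeasureTheory ProbabilityTheory Filter Finset

namespace Pool.Agent.T2H51.PZ

/-- independent perturbations of size at most `1/8`, at least `η` with probability at least `p`, and at most `-η` with
probability at least `p` -/
structure Pert {Ω : Type} [MeasurableSpace Ω] (P : Measure Ω) (η p : ℝ) (ξ : ℕ → Ω → ℝ) : Prop where
  meas : ∀ n, Measurable (ξ n)
  indep : iIndepFun ξ P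
  bound : ∀ n ω, |ξ n ω| ≤ 1 / 8
  up : ∀ n, p ≤ P.real {ω | η ≤ ξ n ω}
  down : ∀ n, p ≤ P.real {ω | ξ n ω ≤ -η}

section
variable {Ω : Type} [MeasurableSpace Ω] {P : Measure Ω} [IsProbabilityMeasure P] {η p : ℝ} {ξ : ℕ → Ω → ℝ}

/-- extension by zero -/
noncomputable def ext0 (U : Finset ℕ) (f : U → ℝ) (n : ℕ) : ℝ := if h : n ∈ U then f ⟨n, h⟩ else 0

lemma ext0_meas (U : Finset ℕ) (n : ℕ) : Measurable fun f : U → ℝ => ext0 U f n := by
  unfold ext0
  by_cases h : n ∈ U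
  · simp only [dif_pos h]; exact measurable_pi_apply _
  · simp only [dif_neg h]; exact measurable_const

lemma ext0_eq (U : Finset ℕ) (n : ℕ) (h : n ∈ U) (ω : Ω) : ext0 U (fun i : U => ξ i ω) n = ξ n ω := by
  unfold ext0
  rw [dif_pos h]

lemma pair (h : Pert P η p ξ) (hp : 0 ≤ p) (a : ℕ) :
    P.real {ω | ¬ (η ≤ ξ a ω ∧ ξ (a + 1) ω ≤ -η)} ≤ 1 - p ^ 2 := by
  have hi : IndepFun (ξ a) (ξ (a + 1)) P := h.indep.indepFun (by omega)
  have h1 := indepFun_iff_measure_inter_preimage_eq_mul.1 hi (Set.Ici η) (Set.Iic (-η)) measurableSet_Ici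
    measurableSet_Iic
  have h2 : P.real (ξ a ⁻¹' Set.Ici η ∩ ξ (a + 1) ⁻¹' Set.Iic (-η)) =
      P.real {ω | η ≤ ξ a ω} * P.real {ω | ξ (a + 1) ω ≤ -η} := by
    rw [measureReal_def, h1, ENNReal.toReal_mul]
    rfl
  have h3 : {ω | ¬ (η ≤ ξ a ω ∧ ξ (a + 1) ω ≤ -η)} = (ξ a ⁻¹' Set.Ici η ∩ ξ (a + 1) ⁻¹' Set.Iic (-η))ᶜ := rfl
  have hms : MeasurableSet (ξ a ⁻¹' Set.Ici η ∩ ξ (a + 1) ⁻¹' Set.Iic (-η)) :=
    (h.meas a measurableSet_Ici).inter (h.meas (a + 1) measurableSet_Iic)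
  rw [h3, probReal_compl_eq_one_sub hms, h2]
  have h4 := mul_le_mul (h.up a) (h.down (a + 1)) hp (hp.trans (h.up a))
  nlinarith

lemma bad (h : Pert P η p ξ) (hp : 0 ≤ p) (s : Finset ℕ) (hs : ∀ n ∈ s, n + 1 ∉ s) :
    P.real {ω | ∀ n ∈ s, ¬ (η ≤ ξ n ω ∧ ξ (n + 1) ω ≤ -η)} ≤ (1 - p ^ 2) ^ s.card := by
  classical
  induction s using Finset.induction_on with
  | empty => simp
  | insert a s ha ih =>
      have ih' := ih fun n hn h1 => hs n (mem_insert_of_mem hn) (mem_insert_of_mem h1)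
      set U : Finset ℕ := s ∪ s.image (fun n => n + 1) with hU
      set T : Finset ℕ := {a, a + 1} with hT
      have hdis : Disjoint U T := by
        rw [Finset.disjoint_left]
        intro n hn hn'
        rw [hU, mem_union, mem_image] at hn
        rw [hT, mem_insert, mem_singleton] at hn'
        rcases hn with hn | ⟨m, hm, rfl⟩
        · rcases hn' with rfl | rfl
          · exact ha hn
          · exact hs a (mem_insert_self _ _) (mem_insert_of_mem hn)
        · rcases hn' with h1 | h1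
          · exact hs m (mem_insert_of_mem hm) (by rw [h1]; exact mem_insert_self _ _)
          · have : m = a := by omega
            exact ha (this ▸ hm)
      have hi := h.indep.indepFun_finset U T hdis h.meas
      have hA : MeasurableSet {f : U → ℝ | ∀ n ∈ s, ¬ (η ≤ ext0 U f n ∧ ext0 U f (n + 1) ≤ -η)} := by
        have : {f : U → ℝ | ∀ n ∈ s, ¬ (η ≤ ext0 U f n ∧ ext0 U f (n + 1) ≤ -η)} =
            ⋂ n ∈ s, ({f : U → ℝ | η ≤ ext0 U f n} ∩ {f | ext0 U f (n + 1) ≤ -η})ᶜ := by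
          ext f
          simp only [Set.mem_ofPred_eq, Set.mem_iInter, Set.mem_compl_iff, Set.mem_inter_iff]
        rw [this]
        exact Finset.measurableSet_biInter _ fun n _ => ((measurableSet_le measurable_const (ext0_meas U n)).inter
          (measurableSet_le (ext0_meas U (n + 1)) measurable_const)).compl
      have hB : MeasurableSet {f : T → ℝ | ¬ (η ≤ ext0 T f a ∧ ext0 T f (a + 1) ≤ -η)} :=
        ((measurableSet_le measurable_const (ext0_meas T a)).inter
          (measurableSet_le (ext0_meas T (a + 1)) measurable_const)).compl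
      have h1 := indepFun_iff_measure_inter_preimage_eq_mul.1 hi _ _ hA hB
      have e1 : (fun ω (i : U) => ξ i ω) ⁻¹' {f : U → ℝ | ∀ n ∈ s, ¬ (η ≤ ext0 U f n ∧ ext0 U f (n + 1) ≤ -η)} =
          {ω | ∀ n ∈ s, ¬ (η ≤ ξ n ω ∧ ξ (n + 1) ω ≤ -η)} := by
        ext ω
        simp only [Set.mem_preimage, Set.mem_ofPred_eq]
        refine forall₂_congr fun n hn => ?_
        rw [ext0_eq U n (by rw [hU]; exact mem_union_left _ hn) ω,
          ext0_eq U (n + 1) (by rw [hU]; exact mem_union_right _ (mem_image_of_mem _ hn)) ω]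
      have e2 : (fun ω (i : T) => ξ i ω) ⁻¹' {f : T → ℝ | ¬ (η ≤ ext0 T f a ∧ ext0 T f (a + 1) ≤ -η)} =
          {ω | ¬ (η ≤ ξ a ω ∧ ξ (a + 1) ω ≤ -η)} := by
        ext ω
        simp only [Set.mem_preimage, Set.mem_ofPred_eq]
        rw [ext0_eq T a (by rw [hT]; simp) ω, ext0_eq T (a + 1) (by rw [hT]; simp) ω]
      rw [e1, e2] at h1
      have e3 : {ω | ∀ n ∈ insert a s, ¬ (η ≤ ξ n ω ∧ ξ (n + 1) ω ≤ -η)} =
          {ω | ∀ n ∈ s, ¬ (η ≤ ξ n ω ∧ ξ (n + 1) ω ≤ -η)} ∩ {ω | ¬ (η ≤ ξ a ω ∧ ξ (a + 1) ω ≤ -η)} := by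
        ext ω
        simp only [Set.mem_ofPred_eq, Set.mem_inter_iff, Finset.forall_mem_insert]
        tauto
      rw [e3, measureReal_def, h1, ENNReal.toReal_mul, card_insert_of_notMem ha, pow_succ]
      have h5 := pair h hp a
      exact mul_le_mul ih' h5 ENNReal.toReal_nonneg (ENNReal.toReal_nonneg.trans ih')

end

end Pool.Agent.T2H51.PZ
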