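import Pool.Agent.W192.SI.Final
import Pool.Agent.T2H51.PZ.Abs

/-! # Small gaps between zeta zeros in short intervals, in the form used here -/

set_option autoImplicit false

open Filter

namespace Pool.Agent.T2H51.PZ

theorem zeta_gaps {c : ℝ} (hc : 1 / 2 < c) : ∃ θ T0 : ℝ, 0 < θ ∧ θ < 1 ∧ ∀ T : ℝ, T0 ≤ T →
    ∃ n : ℕ, 1 ≤ n ∧ T ≤ SG.ord n ∧ SG.ord n ≤ SG.ord (n + 1) ∧ SG.ord (n + 1) ≤ T + T ^ θ ∧
      SG.ord (n + 1) - SG.ord n < c * (2 * Real.pi / Real.log T) := by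
  obtain ⟨C, T0, hC, h⟩ := Pool.Agent.W192.SI.short_gaps
  have hc0 : 0 < c := by linarith
  obtain ⟨θ, hθ⟩ : ∃ θ : ℝ, θ = 1 / (2 * c) := ⟨_, rfl⟩
  have h0 : 0 < θ := by rw [hθ]; positivity
  have h1 : θ < 1 := by rw [hθ, div_lt_one (by positivity)]; linarith
  have hcθ : (1 + θ) * c = c + 1 / 2 := by rw [hθ]; field_simp
  have e1 : Tendsto (fun T : ℝ => 1 + C / (θ * Real.log T) + C * (Real.log (Real.log T) / Real.log T)) atTop
      (nhds (1 + 0 + C * 0)) := by
    have l1 : Tendsto (fun T : ℝ => θ * Real.log T) atTop atTop := Real.tendsto_log_atTop.const_mul_atTop h0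
    have l2 : Tendsto (fun T : ℝ => Real.log (Real.log T) / Real.log T) atTop (nhds 0) :=
      (Real.isLittleO_log_id_atTop.tendsto_div_nhds_zero).comp Real.tendsto_log_atTop
    exact (tendsto_const_nhds.add (l1.const_div_atTop C)).add (l2.const_mul C)
  have e1' := e1.eventually_lt_const (show 1 + 0 + C * 0 < c + 1 / 2 by linarith)
  have e2 : ∀ᶠ T : ℝ in atTop, Real.log T ^ 6 ≤ T ^ θ := by
    have e3 := (isLittleO_log_rpow_rpow_atTop 6 h0).bound one_pos
    filter_upwards [e3, eventually_ge_atTop (2 : ℝ)] with T h3 h4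
    have hl : 0 ≤ Real.log T := Real.log_nonneg (by linarith)
    rw [Real.norm_eq_abs, Real.norm_eq_abs, abs_of_nonneg (Real.rpow_nonneg hl _),
      abs_of_nonneg (Real.rpow_nonneg (by linarith) _), one_mul] at h3
    have h5 : Real.log T ^ (6 : ℝ) = Real.log T ^ 6 := by
      rw [← Real.rpow_natCast]; norm_num
    rwa [h5] at h3
  obtain ⟨T1, hT1⟩ := eventually_atTop.1 (e1'.and (e2.and ((eventually_ge_atTop T0).and (eventually_ge_atTop (3 : ℝ)))))
  refine ⟨θ, T1, h0, h1, fun T hT => ?_⟩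
  obtain ⟨h2, h3, h4, h5⟩ := hT1 T hT
  have hTpos : 0 < T := by linarith
  have hl : 0 < Real.log T := Real.log_pos (by linarith)
  have hH : T ^ θ ≤ T := by
    calc T ^ θ ≤ T ^ (1 : ℝ) := Real.rpow_le_rpow_of_exponent_le (by linarith) h1.le
      _ = T := Real.rpow_one T
  obtain ⟨n, hn, h6, h7, h8⟩ := h T (T ^ θ) h4 h3 hH
  refine ⟨n, hn, h6, SG.ord_mono hn (by omega), h7, lt_of_le_of_lt h8 ?_⟩
  have h9 : Real.log (T * T ^ θ) = (1 + θ) * Real.log T := by
    rw [Real.log_mul (by positivity) (by positivity), Real.log_rpow hTpos]; ring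
  have h10 : Real.log (T ^ θ) = θ * Real.log T := Real.log_rpow hTpos θ
  rw [h9, h10]
  have hpi := Real.pi_pos
  have h11 : 2 * Real.pi / ((1 + θ) * Real.log T) * (c + 1 / 2) = c * (2 * Real.pi / Real.log T) := by
    rw [← hcθ]
    have : (1 + θ) ≠ 0 := by positivity
    field_simp
  rw [← h11]
  exact mul_lt_mul_of_pos_left h2 (by positivity)

end Pool.Agent.T2H51.PZ
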